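import Mathlib
import Pool.Agent.H568R2.Count

/-!
The lower bound for planted constraint satisfaction problems with expanding scopes, in terms of
the parameters.
-/

set_option linter.unusedSectionVars false

namespace Pool.Agent.V8H46.Dom

open Finset DomAC0 H568R2

section Core
variable {m n r : ℕ} {J : Type}

open Classical in
/-- For one gate function `f` (whose restriction is a junta with high probability) and one set `H`
the assignments for which the sensitive set is exactly `H` are few. -/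
lemma one_gate (hn : 1 ≤ n) (s : Fin m → Fin (r + 1) → Fin m)
    (f : (Fin m × (Fin (r + 1) → Fin n) → Bool) → Bool) (H : Finset (Fin m))
    {y q : ℝ} (hy0 : 0 < y) (hy1 : y ≤ 1) (hq0 : 0 < q) (hq1 : q ≤ 1) {K u : ℕ} (hK : 1 ≤ K)
    (hu : m - (touched s H).card ≤ u) {ε : ℝ}
    (hε : ∀ Y : Fin m × (Fin (r + 1) → Fin n) → Bool,
      Ex (wq q) (fun ρ : Restr (Fin m × (Fin (r + 1) → Fin n)) =>
        if ¬ Junta K (rs (fun x => f (mask Y x)) ρ) then (1 : ℝ) else 0) ≤ ε) :
    ∑ a : Fin m → Fin n, Ex (vp (y / 2)) (fun X : Fin m × (Fin (r + 1) → Fin n) → Bool =>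
      if sens f (vr s a) X = H then (1 : ℝ) else 0) ≤
    ((y * q)⁻¹) ^ H.card * ((K : ℝ) ^ m * (n : ℝ) ^ u + (n : ℝ) ^ m * ε) := by
  have hyq : 0 < y * q := mul_pos hy0 hq0
  have hstep : ∀ a : Fin m → Fin n,
      Ex (vp (y / 2)) (fun X : Fin m × (Fin (r + 1) → Fin n) → Bool =>
        if sens f (vr s a) X = H then (1 : ℝ) else 0) ≤
      ((y * q)⁻¹) ^ H.card * Ex (vp y) (fun Y : Fin m × (Fin (r + 1) → Fin n) → Bool =>
        Ex (wq q) (fun ρ : Restr (Fin m × (Fin (r + 1) → Fin n)) =>
          if Cov f (vr s a) H Y ρ then (1 : ℝ) else 0)) := by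
    intro a
    have h := sens_prob f (vr s a) (vr_inj s a) H hy0.le hy1 hq0.le hq1
    have h2 : Ex (vp (y / 2)) (fun X : Fin m × (Fin (r + 1) → Fin n) → Bool =>
        if sens f (vr s a) X = H then (1 : ℝ) else 0) =
        ((y * q)⁻¹) ^ H.card * ((y * q) ^ H.card * Ex (vp (y / 2))
        (fun X : Fin m × (Fin (r + 1) → Fin n) → Bool =>
        if sens f (vr s a) X = H then (1 : ℝ) else 0)) := by
      rw [← mul_assoc, ← mul_pow, inv_mul_cancel₀ hyq.ne', one_pow, one_mul]
    rw [h2]
    exact mul_le_mul_of_nonneg_left h (by positivity)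
  refine (Finset.sum_le_sum fun a _ => hstep a).trans ?_
  rw [← Finset.mul_sum]
  apply mul_le_mul_of_nonneg_left _ (by positivity)
  rw [← Ex_sum]
  have hone : ∀ Y : Fin m × (Fin (r + 1) → Fin n) → Bool,
      ∑ a : Fin m → Fin n, Ex (wq q) (fun ρ : Restr (Fin m × (Fin (r + 1) → Fin n)) =>
          if Cov f (vr s a) H Y ρ then (1 : ℝ) else 0) ≤
        (K : ℝ) ^ m * (n : ℝ) ^ u + (n : ℝ) ^ m * ε := by
    intro Y
    rw [← Ex_sum]
    have hpt : ∀ ρ : Restr (Fin m × (Fin (r + 1) → Fin n)),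
        ∑ a : Fin m → Fin n, (if Cov f (vr s a) H Y ρ then (1 : ℝ) else 0) ≤
        (K : ℝ) ^ m * (n : ℝ) ^ u +
          (n : ℝ) ^ m * (if ¬ Junta K (rs (fun x => f (mask Y x)) ρ) then (1 : ℝ) else 0) := by
      intro ρ
      by_cases hJ : Junta K (rs (fun x => f (mask Y x)) ρ)
      · obtain ⟨A, hA, hdep⟩ := hJ
        have h1 : ∑ a : Fin m → Fin n, (if Cov f (vr s a) H Y ρ then (1 : ℝ) else 0) ≤
            ((univ.filter (fun a : Fin m → Fin n => ∀ j ∈ H, vr s a j ∈ A)).card : ℝ) := by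
          rw [Finset.sum_boole]
          exact_mod_cast Finset.card_le_card (by
            intro a ha
            rw [Finset.mem_filter] at ha ⊢
            exact ⟨ha.1, ha.2 A hdep⟩)
        have h2 := count_le s H A
        have h3 : A.card ^ H.card * n ^ (m - (touched s H).card) ≤ K ^ m * n ^ u := by
          apply Nat.mul_le_mul
          · calc A.card ^ H.card ≤ K ^ H.card := Nat.pow_le_pow_left hA _
              _ ≤ K ^ m := Nat.pow_le_pow_right hK (by
                  have := Finset.card_le_univ H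
                  simpa using this)
          · exact Nat.pow_le_pow_right hn hu
        have h4 : ((univ.filter (fun a : Fin m → Fin n => ∀ j ∈ H, vr s a j ∈ A)).card : ℝ) ≤
            (K : ℝ) ^ m * (n : ℝ) ^ u := by exact_mod_cast h2.trans h3
        have h5 : (0 : ℝ) ≤ (n : ℝ) ^ m *
            (if ¬ Junta K (rs (fun x => f (mask Y x)) ρ) then (1 : ℝ) else 0) := by
          split_ifs <;> positivity
        linarith
      · rw [if_pos hJ, mul_one]
        have h1 : ∑ a : Fin m → Fin n, (if Cov f (vr s a) H Y ρ then (1 : ℝ) else 0) ≤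
            ∑ a : Fin m → Fin n, (1 : ℝ) := by
          apply Finset.sum_le_sum
          intro a _
          split_ifs <;> norm_num
        have h2 : ∑ a : Fin m → Fin n, (1 : ℝ) = (n : ℝ) ^ m := by simp
        have h5 : (0 : ℝ) ≤ (K : ℝ) ^ m * (n : ℝ) ^ u := by positivity
        linarith
    refine (Ex_mono (wq_nonneg hq0.le hq1) hpt).trans ?_
    rw [Ex_add, Ex_const (wq_sum q), Ex_smul]
    have := hε Y
    have h6 : (n : ℝ) ^ m * Ex (wq q) (fun ρ : Restr (Fin m × (Fin (r + 1) → Fin n)) =>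
        if ¬ Junta K (rs (fun x => f (mask Y x)) ρ) then (1 : ℝ) else 0) ≤ (n : ℝ) ^ m * ε :=
      mul_le_mul_of_nonneg_left this (by positivity)
    linarith
  refine (Ex_mono (vp_nonneg hy0.le hy1) hone).trans ?_
  rw [Ex_const (vp_sum y)]

open Classical in
theorem csp_core [Fintype J] {u : ℕ} (hn : 1 ≤ n) (hu : 2 ≤ u) (hm : m = 4 * u)
    (s : Fin m → Fin (r + 1) → Fin m)
    (hs : ∀ i, s i 0 = i)
    (hexp : ∀ H : Finset (Fin m), m ≤ 4 * H.card → 3 * m ≤ 4 * (touched s H).card)
    (C : Circuit J) (σ : ((Fin m × (Fin (r + 1) → Fin n)) → Bool) → (J → Bool))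
    (hσ : ∀ j, Junta 1 (fun x => σ x j)) (hC : ∀ X, C.eval (σ X) = true ↔ Sat s X)
    {d k : ℕ} (hd : C.depth ≤ d) (hk : 1 ≤ k)
    {y q : ℝ} (hy0 : 0 < y) (hy1 : y ≤ 1) (hq0 : 0 < q) (hq1 : q ≤ 1 / 3)
    (hbad : m * (y / 2) + ((1 + n * (y / 2)) ^ m - 1) ≤ 1 / 2) {W : ℝ}
    (hW : W = ((C.size * (Fintype.card J + C.size + 1) : ℕ) : ℝ)) :
    (n : ℝ) ^ m / 2 ≤ W * 2 ^ m * (((y * q ^ d)⁻¹) ^ (2 * u) *
      (((KK k d : ℕ) : ℝ) ^ m * (n : ℝ) ^ u +
        (n : ℝ) ^ m * (d * W * (4 ^ (KK k d) * (3 * q)) ^ k))) := by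
  subst hW
  set K := KK k d with hKdef
  set ε : ℝ := d * ((C.size * (Fintype.card J + C.size + 1) : ℕ) : ℝ) *
    (4 ^ K * (3 * q)) ^ k with hεdef
  have hqd0 : 0 < q ^ d := pow_pos hq0 d
  have hqd1 : q ^ d ≤ 1 := pow_le_one₀ hq0.le (by linarith)
  have hp0 : 0 ≤ y / 2 := by linarith
  have hp1 : y / 2 ≤ 1 := by linarith
  have hK1 : 1 ≤ K := by
    have := KK_mono k hk (Nat.zero_le d)
    simpa [KK] using this
  have hε0 : 0 ≤ ε := by positivity
  set A : ℝ := (y * q ^ d)⁻¹ with hA
  have hA1 : 1 ≤ A := by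
    rw [hA]
    apply (one_le_inv₀ (mul_pos hy0 hqd0)).2
    calc y * q ^ d ≤ 1 * 1 := mul_le_mul hy1 hqd1 hqd0.le (by norm_num)
      _ = 1 := by norm_num
  -- the functions of the gates
  set F : Fin C.size × ℕ → ((Fin m × (Fin (r + 1) → Fin n)) → Bool) → Bool :=
    fun gi x => gfun C gi.1 (σ x) ((pl C gi.1).take gi.2) with hF
  set T : Finset (Fin C.size × ℕ) := (univ.filter (fun g : Fin C.size => C.gateDepth g ≤ d)) ×ˢ
    Finset.range (Fintype.card J + C.size + 1) with hT
  set Hs : Finset (Finset (Fin m)) := univ.filter (fun H => m ≤ 4 * H.card ∧ 4 * H.card < 2 * m)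
    with hHs
  -- pointwise
  have hpt : ∀ (a : Fin m → Fin n) (X : (Fin m × (Fin (r + 1) → Fin n)) → Bool),
      1 - (if ¬ Uniq s a X then (1 : ℝ) else 0) ≤
      ∑ gi ∈ T, ∑ H ∈ Hs, (if sens (F gi) (vr s a) X = H then (1 : ℝ) else 0) := by
    intro a X
    have hnn : ∀ gi ∈ T, (0 : ℝ) ≤ ∑ H ∈ Hs,
        (if sens (F gi) (vr s a) X = H then (1 : ℝ) else 0) := by
      intro gi _
      apply Finset.sum_nonneg
      intro H _
      split_ifs <;> norm_num
    by_cases hU : Uniq s a X
    · have hsu := uniq_sens (J := J) hU (fun X => C.eval (σ X)) hC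
      obtain ⟨g, hg, i, hi, h1, h2⟩ := medium C σ hσ (vr s a) (vr_inj s a)
        (by rw [Fintype.card_fin]; omega) X hd (by
          rw [hsu, Finset.card_univ]; omega)
      rw [Fintype.card_fin] at h1 h2
      have hmem : ((g, i) : Fin C.size × ℕ) ∈ T := by
        rw [hT, Finset.mem_product, Finset.mem_filter, Finset.mem_range]
        refine ⟨⟨Finset.mem_univ _, hg⟩, ?_⟩
        have := pl_length C g
        show i < _
        omega
      have h3 := Finset.single_le_sum hnn hmem
      have hHmem : sens (F (g, i)) (vr s a) X ∈ Hs := by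
        rw [hHs, Finset.mem_filter]
        exact ⟨Finset.mem_univ _, h1, h2⟩
      have h4 : (1 : ℝ) ≤ ∑ H ∈ Hs,
          (if sens (F (g, i)) (vr s a) X = H then (1 : ℝ) else 0) := by
        have h5 := Finset.single_le_sum (f := fun H =>
          (if sens (F (g, i)) (vr s a) X = H then (1 : ℝ) else 0)) (s := Hs) (by
            intro H _
            show (0 : ℝ) ≤ (if sens (F (g, i)) (vr s a) X = H then (1 : ℝ) else 0)
            split_ifs <;> norm_num) hHmem
        simpa using h5
      simp only [hU, not_true, if_false]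
      linarith
    · simp only [hU, not_false_iff, if_true]
      have := Finset.sum_nonneg hnn
      linarith
  -- average
  have havg : (n : ℝ) ^ m / 2 ≤ ∑ a : Fin m → Fin n, Ex (vp (y / 2))
      (fun X : (Fin m × (Fin (r + 1) → Fin n)) → Bool =>
        1 - (if ¬ Uniq s a X then (1 : ℝ) else 0)) := by
    have h2 : ∀ a ∈ (univ : Finset (Fin m → Fin n)), (1 : ℝ) / 2 ≤ Ex (vp (y / 2))
        (fun X : (Fin m × (Fin (r + 1) → Fin n)) → Bool =>
          1 - (if ¬ Uniq s a X then (1 : ℝ) else 0)) := by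
      intro a _
      have h4 := Ex_add (vp (y / 2)) (fun _ : (Fin m × (Fin (r + 1) → Fin n)) → Bool => (1 : ℝ))
        (fun X => (-1) * (if ¬ Uniq s a X then (1 : ℝ) else 0))
      rw [Ex_const (vp_sum (y / 2)), Ex_smul] at h4
      have h5 := uniq_prob (n := n) hs a hp0 hp1
      have h6 : Ex (vp (y / 2)) (fun X : (Fin m × (Fin (r + 1) → Fin n)) → Bool =>
          1 - (if ¬ Uniq s a X then (1 : ℝ) else 0)) =
          Ex (vp (y / 2)) (fun X : (Fin m × (Fin (r + 1) → Fin n)) → Bool =>
          1 + (-1) * (if ¬ Uniq s a X then (1 : ℝ) else 0)) := by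
        congr 1
        funext X
        ring
      rw [h6, h4]
      linarith
    have h6 := Finset.card_nsmul_le_sum _ _ _ h2
    rw [Finset.card_univ, Fintype.card_fun, Fintype.card_fin, Fintype.card_fin,
      nsmul_eq_mul] at h6
    push_cast at h6
    linarith
  refine havg.trans ?_
  refine (Finset.sum_le_sum fun a _ => Ex_mono (vp_nonneg hp0 hp1) (hpt a)).trans ?_
  simp_rw [Ex_sum]
  rw [Finset.sum_comm]
  have hgi : ∀ gi ∈ T, ∑ a : Fin m → Fin n, ∑ H ∈ Hs, Ex (vp (y / 2))
      (fun X : (Fin m × (Fin (r + 1) → Fin n)) → Bool =>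
        if sens (F gi) (vr s a) X = H then (1 : ℝ) else 0) ≤
      2 ^ m * (A ^ (2 * u) * ((K : ℝ) ^ m * (n : ℝ) ^ u + (n : ℝ) ^ m * ε)) := by
    intro gi hgi
    rw [Finset.sum_comm]
    have hH : ∀ H ∈ Hs, ∑ a : Fin m → Fin n, Ex (vp (y / 2))
        (fun X : (Fin m × (Fin (r + 1) → Fin n)) → Bool =>
        if sens (F gi) (vr s a) X = H then (1 : ℝ) else 0) ≤
        A ^ (2 * u) * ((K : ℝ) ^ m * (n : ℝ) ^ u + (n : ℝ) ^ m * ε) := by
      intro H hHm
      rw [hHs, Finset.mem_filter] at hHm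
      have hx := hexp H hHm.2.1
      have h1 := one_gate (n := n) hn s (F gi) H hy0 hy1 hqd0 hqd1 (K := K) (u := u) hK1
        (by omega) (ε := ε) (by
          intro Y
          have hcol := collapse C (fun x => σ (mask Y x)) (by
            intro j
            obtain ⟨Z, hZ, hdep⟩ := hσ j
            refine ⟨Z, hZ, fun x x' hxx => hdep _ _ fun i hi => ?_⟩
            unfold mask
            rw [hxx i hi]) hq0.le hq1 hk d d le_rfl
          refine le_trans (Ex_mono (wq_nonneg hqd0.le hqd1) fun ρ => ?_) hcol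
          by_cases hG : Good C (fun x => σ (mask Y x)) k d ρ
          · have hJ : Junta K (rs (fun x => F gi (mask Y x)) ρ) := by
              have hgd : C.gateDepth gi.1 ≤ d := by
                rw [hT, Finset.mem_product, Finset.mem_filter] at hgi
                exact hgi.1.2
              exact hG gi.1 hgd gi.2
            simp only [hJ, hG, not_true, if_false, le_refl]
          · simp only [hG, not_false_iff, if_true]
            split_ifs <;> norm_num)
      refine h1.trans ?_
      apply mul_le_mul_of_nonneg_right _ (by positivity)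
      apply pow_le_pow_right₀ hA1
      omega
    refine (Finset.sum_le_card_nsmul _ _ _ hH).trans ?_
    rw [nsmul_eq_mul]
    apply mul_le_mul_of_nonneg_right _ (by positivity)
    have : Hs.card ≤ 2 ^ m := by
      refine (Finset.card_le_univ _).trans ?_
      simp
    exact_mod_cast this
  refine (Finset.sum_le_card_nsmul _ _ _ hgi).trans ?_
  rw [nsmul_eq_mul, mul_assoc]
  apply mul_le_mul_of_nonneg_right _ (by positivity)
  rw [hT, Finset.card_product, Finset.card_range]
  have : (univ.filter (fun g : Fin C.size => C.gateDepth g ≤ d)).card ≤ C.size := by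
    refine (Finset.card_le_univ _).trans ?_
    simp
  exact_mod_cast Nat.mul_le_mul_right _ this

end Core

end Pool.Agent.V8H46.Dom
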