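import Mathlib
import Pool.Agent.V8H46.Dom.Core

/-!
The lower bound for constraint satisfaction problems with expanding scopes, with all parameters
chosen, and the hash functions used in the reduction to the dominating number.
-/

set_option linter.unusedSectionVars false

namespace Pool.Agent.V8H46.Dom

open Finset DomAC0 H568R2

lemma bad_le {m n : ℕ} (hm : 1 ≤ m) (hn : 2 ≤ n) :
    (m : ℝ) * ((1 / (2 * m * n : ℝ)) / 2) + ((1 + n * ((1 / (2 * m * n : ℝ)) / 2)) ^ m - 1)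
      ≤ 1 / 2 := by
  have hm0 : (0 : ℝ) < m := by exact_mod_cast hm
  have hn0 : (0 : ℝ) < n := by exact_mod_cast (by omega : 0 < n)
  have hn2 : (2 : ℝ) ≤ n := by exact_mod_cast hn
  have e1 : (m : ℝ) * ((1 / (2 * m * n : ℝ)) / 2) = 1 / (4 * n) := by
    field_simp
    norm_num
  have e2 : (n : ℝ) * ((1 / (2 * m * n : ℝ)) / 2) = (1 / 4) / m := by
    field_simp
    norm_num
  rw [e1, e2]
  have h1 : (1 : ℝ) / (4 * n) ≤ 1 / 8 := by
    apply one_div_le_one_div_of_le (by norm_num)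
    linarith
  have h2 : (1 + (1 / 4 : ℝ) / m) ^ m ≤ Real.exp (1 / 4) := by
    calc (1 + (1 / 4 : ℝ) / m) ^ m ≤ (Real.exp ((1 / 4 : ℝ) / m)) ^ m := by
          apply pow_le_pow_left₀ (by positivity)
          have := Real.add_one_le_exp ((1 / 4 : ℝ) / m)
          linarith
      _ = Real.exp (1 / 4) := by
          rw [← Real.exp_nat_mul]
          congr 1
          field_simp
  have h3 : Real.exp (1 / 4 : ℝ) ≤ 1.3 := by
    have h4 : (Real.exp (1 / 4 : ℝ)) ^ 4 ≤ (1.3 : ℝ) ^ 4 := by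
      rw [← Real.exp_nat_mul]
      have := Real.exp_one_lt_d9
      have e : ((4 : ℕ) : ℝ) * (1 / 4) = 1 := by norm_num
      rw [e]
      norm_num
      linarith
    exact le_of_pow_le_pow_left₀ (by norm_num) (by norm_num) h4
  have h5 : (1.3 : ℝ) - 1 + 1 / 8 ≤ 1 / 2 := by norm_num
  linarith

/-- For all large `τ` the constraint satisfaction problem with `4 * u` variables over a domain of
size `n = τ ^ (4 * d)` and expanding scopes has no small circuits of depth `d`. -/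
theorem csp_lower (u d : ℕ) (hu : 2 ≤ u) (hd : 1 ≤ d) :
    ∃ τ₀ : ℕ, ∀ τ ≥ τ₀, ∀ (r : ℕ) (s : Fin (4 * u) → Fin (r + 1) → Fin (4 * u)),
      (∀ i, s i 0 = i) →
      (∀ H : Finset (Fin (4 * u)), 4 * u ≤ 4 * H.card → 3 * (4 * u) ≤ 4 * (touched s H).card) →
      ∀ (J : Type) [Fintype J] (C : Circuit J)
        (σ : ((Fin (4 * u) × (Fin (r + 1) → Fin (τ ^ (4 * d)))) → Bool) → (J → Bool)),
      (∀ j, Junta 1 (fun x => σ x j)) → (∀ X, C.eval (σ X) = true ↔ Sat s X) →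
      C.depth ≤ d → τ ^ (d * u) < C.size * (Fintype.card J + C.size + 1) := by
  classical
  obtain ⟨k, hk⟩ : ∃ k : ℕ, k = 16 * u * d := ⟨_, rfl⟩
  obtain ⟨K, hK⟩ : ∃ K : ℕ, K = KK k d := ⟨_, rfl⟩
  refine ⟨2 * (2 ^ (4 * u) * (8 * u) ^ (2 * u) * (K ^ (4 * u) + d * (4 ^ K * 3) ^ k)) + 3, ?_⟩
  intro τ hτ r s hs hexp J _ C σ hσ hC hdep
  by_contra hcon
  rw [not_lt] at hcon
  have hk1 : 1 ≤ k := by
    rw [hk]
    have := Nat.mul_pos (Nat.mul_pos (by norm_num : 0 < 16) (by omega : 0 < u)) hd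
    omega
  have hτ3 : 3 ≤ τ := by omega
  have hτ0 : (0 : ℝ) < τ := by exact_mod_cast (by omega : 0 < τ)
  have hτ1 : (1 : ℝ) ≤ τ := by exact_mod_cast (by omega : 1 ≤ τ)
  have hn2 : 2 ≤ τ ^ (4 * d) := by
    calc 2 ≤ τ := by omega
      _ = τ ^ 1 := (pow_one τ).symm
      _ ≤ τ ^ (4 * d) := Nat.pow_le_pow_right (by omega) (by omega)
  obtain ⟨n, hn⟩ : ∃ n : ℕ, n = τ ^ (4 * d) := ⟨_, rfl⟩
  rw [← hn] at hn2
  have hn0 : (0 : ℝ) < n := by exact_mod_cast (by omega : 0 < n)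
  have hm0 : (0 : ℝ) < ((4 * u : ℕ) : ℝ) := by exact_mod_cast (by omega : 0 < 4 * u)
  have hden : (1 : ℝ) ≤ 2 * ((4 * u : ℕ) : ℝ) * n := by
    have h1 : (1 : ℝ) ≤ ((4 * u : ℕ) : ℝ) := by exact_mod_cast (by omega : 1 ≤ 4 * u)
    have h2 : (1 : ℝ) ≤ n := by exact_mod_cast (by omega : 1 ≤ n)
    nlinarith
  subst hn
  have hcore := csp_core (u := u) (by omega) hu rfl s hs hexp C σ hσ hC hdep hk1
    (y := 1 / (2 * ((4 * u : ℕ) : ℝ) * ((τ ^ (4 * d) : ℕ) : ℝ))) (q := 1 / (τ : ℝ))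
    (by positivity) (by rw [div_le_one (by positivity)]; exact hden) (by positivity)
    (by
      apply one_div_le_one_div_of_le (by norm_num)
      exact_mod_cast hτ3)
    (bad_le (by omega) hn2) rfl
  rw [← hK] at hcore
  obtain ⟨W, hW⟩ : ∃ W : ℝ, W = ((C.size * (Fintype.card J + C.size + 1) : ℕ) : ℝ) := ⟨_, rfl⟩
  rw [← hW] at hcore
  have hW0 : 0 ≤ W := by rw [hW]; positivity
  have hWle : W ≤ (τ : ℝ) ^ (d * u) := by
    rw [hW]
    exact_mod_cast hcon
  -- rewrite everything in terms of τ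
  have e1 : ((1 / (2 * ((4 * u : ℕ) : ℝ) * ((τ ^ (4 * d) : ℕ) : ℝ)) * (1 / (τ : ℝ)) ^ d)⁻¹) ^
      (2 * u) = (8 * u : ℝ) ^ (2 * u) * (τ : ℝ) ^ (10 * (d * u)) := by
    have : (1 / (2 * ((4 * u : ℕ) : ℝ) * ((τ ^ (4 * d) : ℕ) : ℝ)) * (1 / (τ : ℝ)) ^ d)⁻¹ =
        (8 * u) * (τ : ℝ) ^ (5 * d) := by
      have h5 : (τ : ℝ) ^ (5 * d) = (τ : ℝ) ^ (4 * d) * (τ : ℝ) ^ d := by
        rw [← pow_add]; congr 1; ring
      rw [h5]
      push_cast
      rw [one_div, one_div, inv_pow, mul_inv, inv_inv, inv_inv]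
      ring
    rw [this, mul_pow, ← pow_mul]
    congr 2
    ring
  have e2 : (((τ ^ (4 * d) : ℕ) : ℝ)) ^ (4 * u) = (τ : ℝ) ^ (16 * (d * u)) := by
    push_cast
    rw [← pow_mul]
    congr 1
    ring
  have e3 : (((τ ^ (4 * d) : ℕ) : ℝ)) ^ u = (τ : ℝ) ^ (4 * (d * u)) := by
    push_cast
    rw [← pow_mul]
    congr 1
    ring
  have e4 : (τ : ℝ) ^ (16 * (d * u)) * ((4 : ℝ) ^ K * (3 * (1 / (τ : ℝ)))) ^ k =
      (4 ^ K * 3) ^ k := by
    have hk' : k = 16 * (d * u) := by rw [hk]; ring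
    rw [← hk']
    have : (4 : ℝ) ^ K * (3 * (1 / (τ : ℝ))) = (4 ^ K * 3) / τ := by ring
    rw [this, div_pow]
    field_simp
  rw [e1, e2, e3] at hcore
  have e5 : (τ : ℝ) ^ (16 * (d * u)) * (d * W * ((4 : ℝ) ^ K * (3 * (1 / (τ : ℝ)))) ^ k) =
      d * W * (4 ^ K * 3) ^ k := by
    calc _ = d * W * ((τ : ℝ) ^ (16 * (d * u)) * ((4 : ℝ) ^ K * (3 * (1 / (τ : ℝ)))) ^ k) := by
          ring
      _ = _ := by rw [e4]
  rw [e5] at hcore
  obtain ⟨P, hP⟩ : ∃ P : ℝ, P = (τ : ℝ) ^ (d * u) := ⟨_, rfl⟩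
  have hP1 : 1 ≤ P := by rw [hP]; exact one_le_pow₀ hτ1
  have p10 : (τ : ℝ) ^ (10 * (d * u)) = P ^ 10 := by rw [hP, ← pow_mul]; congr 1; ring
  have p16 : (τ : ℝ) ^ (16 * (d * u)) = P ^ 16 := by rw [hP, ← pow_mul]; congr 1; ring
  have p4 : (τ : ℝ) ^ (4 * (d * u)) = P ^ 4 := by rw [hP, ← pow_mul]; congr 1; ring
  rw [p10, p16, p4] at hcore
  rw [← hP] at hWle
  have hτP : (τ : ℝ) ≤ P := by
    rw [hP]
    calc (τ : ℝ) = (τ : ℝ) ^ 1 := (pow_one _).symm
      _ ≤ (τ : ℝ) ^ (d * u) := pow_le_pow_right₀ hτ1 (Nat.mul_pos hd (by omega))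
  obtain ⟨c, hc⟩ : ∃ c : ℝ, c = 2 ^ (4 * u) * (8 * u : ℝ) ^ (2 * u) *
    ((K : ℝ) ^ (4 * u) + d * (4 ^ K * 3) ^ k) := ⟨_, rfl⟩
  have hτc : 2 * c + 3 ≤ τ := by
    rw [hc]
    have h := hτ
    have h' : ((2 * (2 ^ (4 * u) * (8 * u) ^ (2 * u) * (K ^ (4 * u) + d * (4 ^ K * 3) ^ k)) + 3 :
      ℕ) : ℝ) ≤ (τ : ℝ) := by exact_mod_cast h
    push_cast at h'
    linarith
  have hc0 : 0 ≤ c := by rw [hc]; positivity
  -- the right-hand side is at most c * P ^ 15
  have hR : W * 2 ^ (4 * u) * ((8 * u : ℝ) ^ (2 * u) * P ^ 10 *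
      ((K : ℝ) ^ (4 * u) * P ^ 4 + d * W * (4 ^ K * 3) ^ k)) ≤ c * P ^ 15 := by
    have h1 : (K : ℝ) ^ (4 * u) * P ^ 4 + d * W * (4 ^ K * 3) ^ k ≤
        ((K : ℝ) ^ (4 * u) + d * (4 ^ K * 3) ^ k) * P ^ 4 := by
      have h2 : W ≤ P ^ 4 := hWle.trans (by
        calc P = P ^ 1 := (pow_one _).symm
          _ ≤ P ^ 4 := pow_le_pow_right₀ hP1 (by norm_num))
      have h3 : (d : ℝ) * W * (4 ^ K * 3) ^ k ≤ d * P ^ 4 * (4 ^ K * 3) ^ k := by gcongr
      linarith
    have hP0 : 0 ≤ P := by linarith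
    calc W * 2 ^ (4 * u) * ((8 * u : ℝ) ^ (2 * u) * P ^ 10 *
          ((K : ℝ) ^ (4 * u) * P ^ 4 + d * W * (4 ^ K * 3) ^ k))
        ≤ P * 2 ^ (4 * u) * ((8 * u : ℝ) ^ (2 * u) * P ^ 10 *
          (((K : ℝ) ^ (4 * u) + d * (4 ^ K * 3) ^ k) * P ^ 4)) := by gcongr
      _ = c * P ^ 15 := by rw [hc]; ring
  have hfin := hcore.trans hR
  have h16 : P ^ 16 = P * P ^ 15 := by ring
  rw [h16] at hfin
  have hP15 : 0 < P ^ 15 := by positivity
  have : P / 2 ≤ c := by
    by_contra hcc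
    rw [not_le] at hcc
    have := mul_lt_mul_of_pos_right hcc hP15
    linarith
  linarith

/-- Scopes: every scope contains its own index and the scopes are expanding. -/
theorem scopes (m : ℕ) (hm : 1 ≤ m) : ∃ s : Fin m → Fin (20 + 1) → Fin m,
    (∀ i, s i 0 = i) ∧
    ∀ H : Finset (Fin m), m ≤ 4 * H.card → 3 * m ≤ 4 * (touched s H).card := by
  classical
  obtain ⟨F, hF⟩ := expander m hm
  refine ⟨fun i => Fin.cons i (F i), fun i => rfl, fun H hH => ?_⟩
  refine (hF H hH).trans ?_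
  apply Nat.mul_le_mul_left
  apply Finset.card_le_card
  intro v hv
  unfold touched at hv ⊢
  obtain ⟨i, hi, hvi⟩ := Finset.mem_biUnion.1 hv
  obtain ⟨j, _, rfl⟩ := Finset.mem_image.1 hvi
  exact Finset.mem_biUnion.2 ⟨i, hi, Finset.mem_image.2 ⟨j.succ, Finset.mem_univ _, by simp⟩⟩

/-- A family of at most `p * n` hash functions into `p` values; two different elements collide for
at most a fraction of `1 / p` of them. -/
theorem hashing (p n : ℕ) (hp : p.Prime) (hn : 2 ≤ n) :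
    ∃ (t : ℕ) (hsh : (Fin t → ZMod p) → Fin n → Fin p),
      p ^ t ≤ p * n ∧
      ∀ x y : Fin n, x ≠ y → 1 ≤ Nat.card {l : Fin t → ZMod p // hsh l x = hsh l y} ∧
        Nat.card {l : Fin t → ZMod p // hsh l x = hsh l y} * p ≤ p ^ t := by
  classical
  have : Fact p.Prime := ⟨hp⟩
  have : NeZero p := ⟨hp.ne_zero⟩
  have hp2 : 1 < p := hp.one_lt
  refine ⟨Nat.clog p n, ?_⟩
  set t := Nat.clog p n with ht
  have h1 : n ≤ p ^ t := Nat.le_pow_clog hp2 n
  have h2 : p ^ t ≤ p * n := by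
    have ht1 : 1 ≤ t := Nat.clog_pos hp2 hn
    have h3 : p ^ (t - 1) < n := by
      have := Nat.pow_pred_clog_lt_self hp2 (by omega : 1 < n)
      simpa [ht, Nat.pred_eq_sub_one] using this
    calc p ^ t = p * p ^ (t - 1) := by
          rw [← pow_succ']
          congr 1
          omega
      _ ≤ p * n := Nat.mul_le_mul_left _ h3.le
  obtain ⟨e⟩ : Nonempty (Fin n ↪ (Fin t → ZMod p)) := by
    apply Function.Embedding.nonempty_of_card_le
    rw [Fintype.card_fin, Fintype.card_fun, ZMod.card, Fintype.card_fin]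
    exact h1
  refine ⟨fun l x => (ZMod.finEquiv p).symm (∑ j, l j * e x j), h2, ?_⟩
  intro x y hxy
  have hne : e x ≠ e y := fun h => hxy (e.injective h)
  obtain ⟨j0, hj0⟩ : ∃ j, e x j ≠ e y j := by
    by_contra hcon
    push Not at hcon
    exact hne (funext hcon)
  set c : ZMod p := e x j0 - e y j0 with hc
  have hc0 : c ≠ 0 := sub_ne_zero.2 hj0
  set φ : (Fin t → ZMod p) → ZMod p := fun l => ∑ j, l j * (e x j - e y j) with hφ
  have hiff : ∀ l : Fin t → ZMod p, ((ZMod.finEquiv p).symm (∑ j, l j * e x j) =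
      (ZMod.finEquiv p).symm (∑ j, l j * e y j)) ↔ φ l = 0 := by
    intro l
    rw [(ZMod.finEquiv p).symm.injective.eq_iff, hφ]
    simp only [mul_sub, Finset.sum_sub_distrib]
    rw [sub_eq_zero]
  have hcard : Nat.card {l : Fin t → ZMod p // (ZMod.finEquiv p).symm (∑ j, l j * e x j) =
      (ZMod.finEquiv p).symm (∑ j, l j * e y j)} =
      (univ.filter (fun l : Fin t → ZMod p => φ l = 0)).card := by
    rw [Nat.card_eq_fintype_card, Fintype.card_subtype]
    congr 1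
    ext l
    rw [Finset.mem_filter, Finset.mem_filter, hiff]
  rw [hcard]
  constructor
  · rw [Nat.one_le_iff_ne_zero, ← Nat.pos_iff_ne_zero, Finset.card_pos]
    exact ⟨0, Finset.mem_filter.2 ⟨Finset.mem_univ _, by simp [hφ]⟩⟩
  · have hle : ∀ v : ZMod p, (univ.filter (fun l : Fin t → ZMod p => φ l = 0)).card ≤
        (univ.filter (fun l : Fin t → ZMod p => φ l = v)).card := by
      intro v
      apply Finset.card_le_card_of_injOn (fun l => Function.update l j0 (l j0 + v * c⁻¹))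
      · intro l hl
        have hl0 : φ l = 0 := (Finset.mem_filter.1 hl).2
        refine Finset.mem_coe.2 (Finset.mem_filter.2 ⟨Finset.mem_univ _, ?_⟩)
        have : φ (Function.update l j0 (l j0 + v * c⁻¹)) = φ l + v := by
          rw [hφ]
          simp only
          rw [← Finset.add_sum_erase univ _ (Finset.mem_univ j0),
            ← Finset.add_sum_erase univ (fun j => l j * (e x j - e y j)) (Finset.mem_univ j0)]
          have hrest : ∑ j ∈ univ.erase j0, Function.update l j0 (l j0 + v * c⁻¹) j *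
              (e x j - e y j) = ∑ j ∈ univ.erase j0, l j * (e x j - e y j) := by
            apply Finset.sum_congr rfl
            intro j hj
            rw [Function.update_of_ne (Finset.ne_of_mem_erase hj)]
          rw [hrest, Function.update_self]
          have : (l j0 + v * c⁻¹) * (e x j0 - e y j0) = l j0 * (e x j0 - e y j0) + v := by
            rw [← hc, add_mul, mul_assoc, inv_mul_cancel₀ hc0, mul_one]
          rw [this]
          ring
        rw [this, hl0, zero_add]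
      · intro l _ l' _ hll
        funext j
        have := congrFun hll j
        by_cases hj : j = j0
        · subst hj
          simpa using this
        · simpa [Function.update_of_ne hj] using this
    have hsum : ∑ v : ZMod p, (univ.filter (fun l : Fin t → ZMod p => φ l = v)).card = p ^ t := by
      rw [← Finset.card_eq_sum_card_fiberwise (s := univ) (t := univ) (f := φ)
        (fun l _ => Finset.mem_univ _), Finset.card_univ, Fintype.card_fun, ZMod.card,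
        Fintype.card_fin]
    rw [← hsum]
    calc _ = ∑ _v : ZMod p, (univ.filter (fun l : Fin t → ZMod p => φ l = 0)).card := by
          rw [Finset.sum_const, Finset.card_univ, ZMod.card, smul_eq_mul, mul_comm]
      _ ≤ _ := Finset.sum_le_sum fun v _ => hle v

end Pool.Agent.V8H46.Dom
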