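import Mathlib
import Pool.Agent.V8H46.Dom.Param

/-!
No family of circuits of constant depth and of size `n ^ o(k)` approximates the dominating number.
-/

set_option linter.unusedSectionVars false

namespace Pool.Agent.V8H46.Dom

open Finset DomAC0 H568R2

/-- The reduction: a circuit that distinguishes dominating number at most `m` from dominating
number greater than `B` on all graphs with `N` vertices decides the constraint satisfaction problem. -/
theorem reduce {m n r B p t : ℕ} (hm : 0 < m) (hp : p.Prime) (hpB : B ^ m < p)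
    (s : Fin m → Fin (r + 1) → Fin m) (hs : ∀ i, s i 0 = i)
    (hsh : (Fin t → ZMod p) → Fin n → Fin p)
    (hcol : ∀ x y : Fin n, x ≠ y → 1 ≤ Nat.card {l : Fin t → ZMod p // hsh l x = hsh l y} ∧
        Nat.card {l : Fin t → ZMod p // hsh l x = hsh l y} * p ≤ p ^ t)
    {N : ℕ} (hN : N = m * n ^ (r + 1) + (B + 1) * (p ^ t * m ^ (p ^ m)))
    (K : Circuit (Pairs N))
    (hyes : ∀ G : SimpleGraph (Fin N), domNumber G ≤ m → K.eval (adjBits G) = true)
    (hno : ∀ G : SimpleGraph (Fin N), B < domNumber G → K.eval (adjBits G) = false) :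
    ∃ σ : ((Fin m × (Fin (r + 1) → Fin n)) → Bool) → (Pairs N → Bool),
      (∀ j, Junta 1 (fun x => σ x j)) ∧ ∀ X, K.eval (σ X) = true ↔ Sat s X := by
  classical
  have : Fact p.Prime := ⟨hp⟩
  have : NeZero p := ⟨hp.ne_zero⟩
  obtain ⟨e⟩ : Nonempty (Vx m (r + 1) n B p (Fin t → ZMod p) ≃ Fin N) := by
    rw [← Fintype.card_eq]
    simp only [Vx, Fintype.card_sum, Fintype.card_prod, Fintype.card_fun, Fintype.card_fin,
      ZMod.card]
    exact hN.symm
  have hcol' : ∀ x y : Fin n, x ≠ y →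
      (univ.filter (fun l : Fin t → ZMod p => hsh l x = hsh l y)).card * B ^ m <
        Fintype.card (Fin t → ZMod p) := by
    intro x y hxy
    obtain ⟨h1, h2⟩ := hcol x y hxy
    have hc : Nat.card {l : Fin t → ZMod p // hsh l x = hsh l y} =
        (univ.filter (fun l : Fin t → ZMod p => hsh l x = hsh l y)).card := by
      rw [Nat.card_eq_fintype_card, Fintype.card_subtype]
    rw [hc] at h1 h2
    rw [Fintype.card_fun, ZMod.card, Fintype.card_fin]
    calc _ < (univ.filter (fun l : Fin t → ZMod p => hsh l x = hsh l y)).card * p :=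
          Nat.mul_lt_mul_of_pos_left hpB (by omega)
      _ ≤ p ^ t := h2
  refine ⟨fun X => adjBits ((GX B s hsh X).comap e.symm), ?_, ?_⟩
  · intro j
    exact adj_junta s hsh (e.symm j.1.1) (e.symm j.1.2)
  · intro X
    have hd : domNumber ((GX B s hsh X).comap e.symm) = domNumber (GX B s hsh X) :=
      domNumber_comap e _
    constructor
    · intro h
      by_contra hX
      have h1 := no_case' s hs hsh hcol' X hX
      rw [← hd] at h1
      rw [hno _ h1] at h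
      exact absurd h (by simp)
    · intro hX
      apply hyes
      rw [hd]
      exact yes_case hm s hsh X hX

theorem card_pairs_le (N : ℕ) : Fintype.card (Pairs N) ≤ N ^ 2 := by
  calc Fintype.card (Pairs N) ≤ Fintype.card (Fin N × Fin N) := Fintype.card_subtype_le _
    _ = N ^ 2 := by rw [Fintype.card_prod, Fintype.card_fin, sq]

theorem main (f : ℕ → ℕ) (C : (n k : ℕ) → Circuit (Pairs n)) (hC : ConstDepthLittleO C)
    (hA : Approximates C f) : False := by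
  obtain ⟨d₀, h, g, hg, hCs⟩ := hC
  obtain ⟨d, hd⟩ : ∃ d, d = max d₀ 1 := ⟨_, rfl⟩
  have hd1 : 1 ≤ d := by rw [hd]; exact le_max_right _ _
  -- choose `u`
  have hev := hg.bound (c := 1 / 1000) (by norm_num)
  rw [Filter.eventually_atTop] at hev
  obtain ⟨k₀, hk₀⟩ := hev
  obtain ⟨u, hu⟩ : ∃ u, u = max k₀ 2000 := ⟨_, rfl⟩
  have hu2 : 2000 ≤ u := by rw [hu]; exact le_max_right _ _
  have huk : k₀ ≤ 4 * u := by
    have : k₀ ≤ u := by rw [hu]; exact le_max_left _ _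
    omega
  obtain ⟨m, hm⟩ : ∃ m, m = 4 * u := ⟨_, rfl⟩
  have hgm := hk₀ (4 * u) huk
  obtain ⟨G, hG⟩ : ∃ G : ℕ, G = ⌈(4 * u : ℝ) / 1000⌉₊ := ⟨_, rfl⟩
  have hGg : g (4 * u) ≤ (G : ℝ) := by
    have h1 : g (4 * u) ≤ ‖g (4 * u)‖ := le_abs_self _
    have h2 : (4 * u : ℝ) / 1000 ≤ G := by rw [hG]; exact Nat.le_ceil _
    have h3 : ‖(((4 * u : ℕ)) : ℝ)‖ = 4 * u := by
      rw [Real.norm_of_nonneg (by positivity)]
      push_cast
      ring
    rw [h3] at hgm
    linarith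
  have hGu : (G : ℝ) ≤ (4 * u : ℝ) / 1000 + 1 := by
    rw [hG]
    exact (Nat.ceil_lt_add_one (by positivity)).le
  have hGu' : 1000 * G ≤ 4 * u + 1000 := by
    have : (1000 * G : ℝ) ≤ 4 * u + 1000 := by linarith
    exact_mod_cast this
  -- parameters of the reduction
  obtain ⟨B, hB⟩ : ∃ B, B = f (4 * u) * (4 * u) := ⟨_, rfl⟩
  obtain ⟨p, hpB, hp⟩ := Nat.exists_infinite_primes (B ^ (4 * u) + 1)
  obtain ⟨s, hs, hexp⟩ := scopes (4 * u) (by omega)
  obtain ⟨τ₀, hτ₀⟩ := csp_lower u d (by omega) hd1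
  obtain ⟨c₁, hc₁⟩ : ∃ c₁, c₁ = 4 * u + (B + 1) * (p * (4 * u) ^ (p ^ (4 * u))) := ⟨_, rfl⟩
  obtain ⟨c₂, hc₂⟩ : ∃ c₂, c₂ = (h (4 * u) + 2) ^ 2 * c₁ ^ (2 * (G + 2)) := ⟨_, rfl⟩
  obtain ⟨τ, hτ⟩ : ∃ τ, τ = max τ₀ (c₂ + 2) := ⟨_, rfl⟩
  have hττ₀ : τ₀ ≤ τ := by rw [hτ]; exact le_max_left _ _
  have hτc : c₂ + 2 ≤ τ := by rw [hτ]; exact le_max_right _ _
  obtain ⟨n, hn⟩ : ∃ n, n = τ ^ (4 * d) := ⟨_, rfl⟩
  have hn2 : 2 ≤ n := by
    rw [hn]
    calc 2 ≤ τ := by omega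
      _ = τ ^ 1 := (pow_one τ).symm
      _ ≤ τ ^ (4 * d) := Nat.pow_le_pow_right (by omega) (by omega)
  obtain ⟨t, hsh, ht, hcol⟩ := hashing p n hp hn2
  obtain ⟨N, hN⟩ : ∃ N, N = 4 * u * n ^ (20 + 1) + (B + 1) * (p ^ t * (4 * u) ^ (p ^ (4 * u))) :=
    ⟨_, rfl⟩
  have hN1 : 1 ≤ N := by
    rw [hN]
    have : 0 < 4 * u * n ^ (20 + 1) := by positivity
    omega
  have hNle : N ≤ c₁ * n ^ 21 := by
    rw [hN, hc₁, Nat.add_mul (4 * u)]
    apply Nat.add_le_add_left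
    have h1 : n ≤ n ^ 21 := by
      calc n = n ^ 1 := (pow_one n).symm
        _ ≤ n ^ 21 := Nat.pow_le_pow_right (by omega) (by norm_num)
    calc (B + 1) * (p ^ t * (4 * u) ^ (p ^ (4 * u)))
        ≤ (B + 1) * ((p * n ^ 21) * (4 * u) ^ (p ^ (4 * u))) := by
          apply Nat.mul_le_mul_left
          apply Nat.mul_le_mul_right
          exact ht.trans (Nat.mul_le_mul_left _ h1)
      _ = _ := by ring
  obtain ⟨hdep, hsize⟩ := hCs N (4 * u) hN1 (by omega)
  obtain ⟨σ, hσ, hCσ⟩ := reduce (by omega : 0 < 4 * u) hp (by omega) s hs hsh hcol hN (C N (4 * u))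
    (fun G hGd => (hA N (4 * u) hN1 (by omega) G).1 hGd)
    (fun G hGd => (hA N (4 * u) hN1 (by omega) G).2 (by rw [← hB]; exact hGd))
  subst hn
  have hlow := hτ₀ τ hττ₀ 20 s hs hexp (Pairs N) (C N (4 * u)) σ hσ hCσ
    (hdep.trans (by rw [hd]; exact le_max_left _ _))
  -- upper bound
  have hS : (C N (4 * u)).size ≤ h (4 * u) * N ^ G := by
    have h1 : ((C N (4 * u)).size : ℝ) ≤ (h (4 * u) : ℝ) * (N : ℝ) ^ (G : ℝ) := by
      refine hsize.trans ?_
      apply mul_le_mul_of_nonneg_left _ (by positivity)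
      exact Real.rpow_le_rpow_of_exponent_le (by exact_mod_cast hN1) hGg
    rw [Real.rpow_natCast] at h1
    exact_mod_cast h1
  have hpos : 0 < N := hN1
  have hS2 : (C N (4 * u)).size ≤ h (4 * u) * N ^ (G + 2) :=
    hS.trans (Nat.mul_le_mul_left _ (Nat.pow_le_pow_right hpos (by omega)))
  have hJ2 : Fintype.card (Pairs N) ≤ N ^ (G + 2) :=
    (card_pairs_le N).trans (Nat.pow_le_pow_right hpos (by omega))
  have h12 : 1 ≤ N ^ (G + 2) := Nat.one_le_pow _ _ hpos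
  have hup : (C N (4 * u)).size * (Fintype.card (Pairs N) + (C N (4 * u)).size + 1) ≤
      c₂ * τ ^ (4 * d * (21 * (2 * (G + 2)))) := by
    have h3 : Fintype.card (Pairs N) + (C N (4 * u)).size + 1 ≤ (h (4 * u) + 2) * N ^ (G + 2) := by
      linarith
    have h4 : (C N (4 * u)).size ≤ (h (4 * u) + 2) * N ^ (G + 2) := by
      linarith
    calc _ ≤ ((h (4 * u) + 2) * N ^ (G + 2)) * ((h (4 * u) + 2) * N ^ (G + 2)) :=
          Nat.mul_le_mul h4 h3
      _ = (h (4 * u) + 2) ^ 2 * N ^ (2 * (G + 2)) := by ring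
      _ ≤ (h (4 * u) + 2) ^ 2 * (c₁ * (τ ^ (4 * d)) ^ 21) ^ (2 * (G + 2)) :=
          Nat.mul_le_mul_left _ (Nat.pow_le_pow_left hNle _)
      _ = c₂ * τ ^ (4 * d * (21 * (2 * (G + 2)))) := by
          rw [hc₂, mul_pow, ← pow_mul, ← pow_mul]
          ring
  have hexp' : 4 * d * (21 * (2 * (G + 2))) + 1 ≤ d * u := by
    have h1 : 168 * (G + 2) + 1 ≤ u := by omega
    calc 4 * d * (21 * (2 * (G + 2))) + 1 = d * (168 * (G + 2)) + 1 := by ring
      _ ≤ d * (168 * (G + 2)) + d := by omega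
      _ = d * (168 * (G + 2) + 1) := by ring
      _ ≤ d * u := Nat.mul_le_mul_left _ h1
  have hlast : c₂ * τ ^ (4 * d * (21 * (2 * (G + 2)))) ≤ τ ^ (d * u) := by
    calc _ ≤ τ * τ ^ (4 * d * (21 * (2 * (G + 2)))) := Nat.mul_le_mul_right _ (by omega)
      _ = τ ^ (4 * d * (21 * (2 * (G + 2))) + 1) := by rw [pow_succ]; ring
      _ ≤ τ ^ (d * u) := Nat.pow_le_pow_right (by omega) hexp'
  omega

end Pool.Agent.V8H46.Dom
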